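import Mathlib

open Cardinal Set

namespace Pool.Agent.Results.MP_04ddd8_lc.NotFullPowerSet

section ideal

variable {W : Type} [LinearOrder W]

/-- `Small A`: some `g : W → W` witnesses that no point of `A` is closed under `g`. -/
def Small (A : Set W) : Prop := ∃ g : W → W, ∀ a ∈ A, ∃ ξ < a, a ≤ g ξ

theorem Small.mono {A B : Set W} (h : A ⊆ B) (hB : Small B) : Small A := by
  obtain ⟨g, hg⟩ := hB
  exact ⟨g, fun a ha => hg a (h ha)⟩

theorem small_empty [Nonempty W] : Small (∅ : Set W) :=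
  ⟨fun x => x, fun a ha => absurd ha (by simp)⟩

theorem Small.union {A B : Set W} (hA : Small A) (hB : Small B) : Small (A ∪ B) := by
  obtain ⟨g, hg⟩ := hA
  obtain ⟨h, hh⟩ := hB
  refine ⟨fun x => max (g x) (h x), ?_⟩
  rintro a (ha | ha)
  · obtain ⟨ξ, h1, h2⟩ := hg a ha
    exact ⟨ξ, h1, h2.trans (le_max_left _ _)⟩
  · obtain ⟨ξ, h1, h2⟩ := hh a ha
    exact ⟨ξ, h1, h2.trans (le_max_right _ _)⟩

theorem Small.iUnion (hb : ∀ f : ℕ → W, ∃ b, ∀ n, f n ≤ b) {A : ℕ → Set W}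
    (hA : ∀ n, Small (A n)) : Small (⋃ n, A n) := by
  choose g hg using hA
  choose b hb' using fun ξ => hb (fun n => g n ξ)
  refine ⟨b, ?_⟩
  intro a ha
  obtain ⟨n, hn⟩ := mem_iUnion.1 ha
  obtain ⟨ξ, h1, h2⟩ := hg n a hn
  exact ⟨ξ, h1, h2.trans (hb' ξ n)⟩

theorem Small.iUnion_lt (hB : ∀ s : Set W, #s < #W → ∃ b, ∀ x ∈ s, x < b) {ι : Type}
    (hι : #ι < #W) {A : ι → Set W} (hA : ∀ i, Small (A i)) : Small (⋃ i, A i) := by
  choose g hg using hA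
  have h : ∀ ξ : W, ∃ b, ∀ i, g i ξ < b := by
    intro ξ
    obtain ⟨b, hb⟩ := hB (range fun i => g i ξ) (mk_range_le.trans_lt hι)
    exact ⟨b, fun i => hb _ ⟨i, rfl⟩⟩
  choose b hb using h
  refine ⟨b, ?_⟩
  intro a ha
  obtain ⟨i, hi⟩ := mem_iUnion.1 ha
  obtain ⟨ξ, h1, h2⟩ := hg i a hi
  exact ⟨ξ, h1, h2.trans (hb ξ i).le⟩

/-- limits of strictly increasing sequences -/
def LimSet (W : Type) [LinearOrder W] : Set W :=
  {δ | ∃ a : ℕ → W, (∀ n, a n < δ) ∧ ∀ x < δ, ∃ n, x < a n}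

variable [WellFoundedLT W]

theorem exists_closed (hB : ∀ s : Set W, #s < #W → ∃ b, ∀ x ∈ s, x < b)
    (hI : ∀ a : W, #(Set.Iic a) < #W) (hω : ℵ₀ < #W) (g : W → W) (w : W) :
    ∃ δ, w < δ ∧ δ ∈ LimSet W ∧ ∀ ξ < δ, g ξ < δ := by
  have step : ∀ a : W, ∃ b, a < b ∧ ∀ ξ ≤ a, g ξ < b := by
    intro a
    obtain ⟨b1, hb1⟩ := hB (g '' Set.Iic a) (mk_image_le.trans_lt (hI a))
    obtain ⟨b2, hb2⟩ := hB (Set.Iic a) (hI a)
    refine ⟨max b1 b2, lt_max_of_lt_right (hb2 a (Set.mem_Iic.2 le_rfl)), ?_⟩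
    intro ξ hξ
    exact lt_max_of_lt_left (hb1 _ ⟨ξ, hξ, rfl⟩)
  choose nx hnx1 hnx2 using step
  let a : ℕ → W := fun n => Nat.rec w (fun _ x => nx x) n
  have ha0 : a 0 = w := rfl
  have hasucc : ∀ n, a (n + 1) = nx (a n) := fun n => rfl
  have halt : ∀ n, a n < a (n + 1) := fun n => by rw [hasucc]; exact hnx1 _
  have hbd : ∃ b, ∀ n, a n < b := by
    obtain ⟨b, hb⟩ := hB (range a) (by
      refine lt_of_le_of_lt ?_ hω
      exact (mk_range_le_lift (f := a)).trans_eq' (by simp) |>.trans (by simp))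
    exact ⟨b, fun n => hb _ ⟨n, rfl⟩⟩
  let U : Set W := {b | ∀ n, a n < b}
  have hU : U.Nonempty := hbd
  let δ := WellFounded.min (wellFounded_lt (α := W)) U hU
  have hδ : δ ∈ U := WellFounded.min_mem _ _ _
  have hmin : ∀ x < δ, ∃ n, x < a n := by
    intro x hx
    have : x ∉ U := fun hxU => WellFounded.not_lt_min _ U hxU hx
    simp only [U, mem_ofPred_eq, not_forall, not_lt] at this
    obtain ⟨n, hn⟩ := this
    exact ⟨n + 1, hn.trans_lt (halt n)⟩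
  refine ⟨δ, hδ 0, ⟨a, hδ, hmin⟩, ?_⟩
  intro ξ hξ
  obtain ⟨n, hn⟩ := hmin ξ hξ
  have h7 : g ξ < a (n + 1) := hnx2 (a n) ξ hn.le
  exact h7.trans (hδ (n + 1))

/-- Solovay-type splitting of the set of limits of countable sequences. -/
theorem exists_split [Nonempty W] (hB : ∀ s : Set W, #s < #W → ∃ b, ∀ x ∈ s, x < b)
    (hI : ∀ a : W, #(Set.Iic a) < #W) (hω : ℵ₀ < #W) :
    ∃ f : W → W, ∃ Γ : Set W, #W ≤ #Γ ∧ ∀ γ ∈ Γ, ¬ Small (LimSet W ∩ f ⁻¹' {γ}) := by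
  classical
  have hNb : ∀ f : ℕ → W, ∃ b, ∀ n, f n < b := by
    intro f
    obtain ⟨b, hb⟩ := hB (range f) (by
      refine lt_of_le_of_lt ?_ hω
      exact (mk_range_le_lift (f := f)).trans_eq' (by simp) |>.trans (by simp))
    exact ⟨b, fun n => hb _ ⟨n, rfl⟩⟩
  have hNb' : ∀ f : ℕ → W, ∃ b, ∀ n, f n ≤ b := fun f => by
    obtain ⟨b, hb⟩ := hNb f
    exact ⟨b, fun n => (hb n).le⟩
  -- the limit set is not small
  have hS : ∀ w : W, ¬ Small (LimSet W ∩ Set.Ioi w) := by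
    rintro w ⟨g, hg⟩
    obtain ⟨δ, h1, h2, h3⟩ := exists_closed hB hI hω g w
    obtain ⟨ξ, h4, h5⟩ := hg δ ⟨h2, h1⟩
    exact absurd (h3 ξ h4) (not_lt.2 h5)
  have hex : ∀ δ : W, ∃ a : ℕ → W, δ ∈ LimSet W → (∀ n, a n < δ) ∧ ∀ x < δ, ∃ n, x < a n := by
    intro δ
    by_cases h : δ ∈ LimSet W
    · obtain ⟨a, ha⟩ := h
      exact ⟨a, fun _ => ha⟩
    · exact ⟨fun _ => δ, fun h' => absurd h' h⟩
  choose A hA using hex
  -- choice of the coordinate
  have hn : ∃ n, ∀ η, ¬ Small (LimSet W ∩ {δ | η ≤ A δ n}) := by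
    by_contra hcon
    push Not at hcon
    choose η hη using hcon
    obtain ⟨b, hb⟩ := hNb η
    refine hS b ?_
    refine Small.mono ?_ (Small.iUnion hNb' hη)
    rintro δ ⟨h1, h2⟩
    obtain ⟨n, hn⟩ := (hA δ h1).2 b h2
    exact mem_iUnion.2 ⟨n, h1, (hb n).le.trans hn.le⟩
  obtain ⟨n, hn⟩ := hn
  refine ⟨fun δ => A δ n, {γ | ¬ Small (LimSet W ∩ (fun δ => A δ n) ⁻¹' {γ})}, ?_, fun γ hγ => hγ⟩
  by_contra hlt
  rw [not_le] at hlt
  obtain ⟨η, hη⟩ := hB _ hlt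
  refine hn η ?_
  -- Fodor
  have hsm : ∀ γ : W, ∃ g : W → W, η ≤ γ → ∀ a ∈ LimSet W ∩ (fun δ => A δ n) ⁻¹' {γ},
      ∃ ξ < a, a ≤ g ξ := by
    intro γ
    by_cases h : η ≤ γ
    · have : Small (LimSet W ∩ (fun δ => A δ n) ⁻¹' {γ}) := by
        by_contra hns
        exact absurd (hη γ hns) (not_lt.2 h)
      obtain ⟨g, hg⟩ := this
      exact ⟨g, fun _ => hg⟩
    · exact ⟨fun x => x, fun h' => absurd h' h⟩
  choose G hG using hsm
  have hsup : ∀ ζ : W, ∃ b, ∀ γ ≤ ζ, ∀ ξ ≤ ζ, G γ ξ ≤ b := by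
    intro ζ
    have hcard : #((fun p : W × W => G p.1 p.2) '' (Set.Iic ζ ×ˢ Set.Iic ζ)) < #W := by
      refine mk_image_le.trans_lt ?_
      rw [Cardinal.mk_setProd]
      exact Cardinal.mul_lt_of_lt hω.le (hI ζ) (hI ζ)
    obtain ⟨b, hb⟩ := hB _ hcard
    exact ⟨b, fun γ hγ ξ hξ => (hb _ ⟨(γ, ξ), ⟨hγ, hξ⟩, rfl⟩).le⟩
  choose g hg using hsup
  refine ⟨g, ?_⟩
  rintro a ⟨ha1, ha2⟩
  obtain ⟨ξ, h1, h2⟩ := hG (A a n) ha2 a ⟨ha1, rfl⟩
  have h3 : A a n < a := (hA a ha1).1 n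
  exact ⟨max (A a n) ξ, max_lt h3 h1,
    h2.trans (hg _ _ (le_max_left _ _) _ (le_max_right _ _))⟩

end ideal

/-- A regular uncountable cardinal as a well-ordered set. -/
theorem regular_order {l : Cardinal.{0}} (hl : l.IsRegular) (hω : ℵ₀ < l) :
    ∃ (W : Type) (_ : LinearOrder W) (_ : WellFoundedLT W), Nonempty W ∧ #W = l ∧
      (∀ s : Set W, #s < #W → ∃ b, ∀ x ∈ s, x < b) ∧ (∀ a : W, #(Set.Iic a) < #W) := by
  let W : Type := l.ord.ToType
  have hW : #W = l := by simp [W]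
  have hIio : ∀ a : W, #(Set.Iio a) < l := fun a => mk_Iio_toType_ord_lt a
  refine ⟨W, inferInstance, inferInstance, ?_, hW, ?_, ?_⟩
  · rw [← mk_ne_zero_iff, hW]
    exact (aleph0_pos.trans hω).ne'
  · intro s hs
    by_contra hcon
    push Not at hcon
    have hc : IsCofinal s := by
      intro b
      obtain ⟨x, hx, hbx⟩ := hcon b
      exact ⟨x, hx, hbx⟩
    have h1 : Order.cof W ≤ #s := Order.cof_le hc
    have h2 : Order.cof W = l := by
      rw [Ordinal.cof_toType, hl.cof_ord]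
    rw [h2] at h1
    rw [hW] at hs
    exact absurd h1 (not_le.2 hs)
  · intro a
    rw [hW]
    have : Set.Iic a = insert a (Set.Iio a) := by
      ext x; simp [le_iff_eq_or_lt]
    rw [this]
    refine lt_of_le_of_lt (mk_insert_le) ?_
    exact Cardinal.add_lt_of_lt hω.le (hIio a) (lt_of_lt_of_le one_lt_aleph0 hω.le)

/-- The least cardinal `κ` with `2 ^ κ > 𝔠` is regular and uncountable, `κ ≤ 𝔠` and `2 ^< κ = 𝔠`. -/
theorem exists_least : ∃ k : Cardinal.{0}, IsLeast {m : Cardinal.{0} | 𝔠 < 2 ^ m} k ∧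
    k.IsRegular ∧ ℵ₀ < k ∧ k ≤ 𝔠 ∧ 2 ^< k = 𝔠 := by
  classical
  let K : Set Cardinal.{0} := {κ | 𝔠 < 2 ^ κ}
  have hK : K.Nonempty := ⟨𝔠, cantor 𝔠⟩
  let κ := sInf K
  have hκ : 𝔠 < 2 ^ κ := csInf_mem hK
  have hmin : ∀ μ < κ, 2 ^ μ ≤ 𝔠 := by
    intro μ hμ
    by_contra h
    exact absurd (csInf_le' (s := K) (not_le.1 h)) (not_le.2 hμ)
  have hκc : κ ≤ 𝔠 := csInf_le' (cantor 𝔠)
  have hκω : ℵ₀ < κ := by
    by_contra h
    rw [not_lt] at h
    have := Cardinal.power_le_power_left (two_ne_zero) h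
    rw [two_power_aleph0] at this
    exact absurd hκ (not_lt.2 this)
  let W : Type := κ.ord.ToType
  have hW : #W = κ := by simp [W]
  have hIio : ∀ a : W, #(Set.Iio a) < κ := fun a => mk_Iio_toType_ord_lt a
  have hIic : ∀ a : W, #(Set.Iic a) < κ := by
    intro a
    have : Set.Iic a = insert a (Set.Iio a) := by
      ext x; simp [le_iff_eq_or_lt]
    rw [this]
    refine lt_of_le_of_lt (mk_insert_le) ?_
    exact Cardinal.add_lt_of_lt hκω.le (hIio a) (lt_of_lt_of_le one_lt_aleph0 hκω.le)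
  have hcof : ∀ s : Set W, IsCofinal s → κ ≤ #s := by
    intro s hcon
    by_contra hs
    rw [not_le] at hs
    let F : Set W → (∀ x : s, Set (Set.Iic (x : W))) := fun A x => {y | (y : W) ∈ A}
    have hF : Function.Injective F := by
      intro A B hAB
      ext a
      obtain ⟨x, hx, hax⟩ := hcon a
      have := congrFun hAB ⟨x, hx⟩
      have h2 := Set.ext_iff.1 this ⟨a, hax⟩
      exact h2
    have h1 : #(Set W) ≤ #(∀ x : s, Set (Set.Iic (x : W))) := mk_le_of_injective hF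
    rw [mk_set, hW, mk_pi] at h1
    have h2 : Cardinal.prod (fun x : s => #(Set (Set.Iic (x : W)))) ≤
        Cardinal.prod (fun _ : s => 𝔠) := by
      refine Cardinal.prod_le_prod _ _ ?_
      intro x
      rw [mk_set]
      exact hmin _ (hIic x)
    have h3 : Cardinal.prod (fun _ : s => 𝔠) ≤ 𝔠 := by
      rw [Cardinal.prod_const']
      calc 𝔠 ^ #s = (2 ^ ℵ₀) ^ #s := by rw [two_power_aleph0]
        _ = (2 ^ #s) ^ ℵ₀ := by rw [← power_mul, ← power_mul, mul_comm]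
        _ ≤ 𝔠 ^ ℵ₀ := Cardinal.power_le_power_right (hmin _ hs)
        _ = 𝔠 := continuum_power_aleph0
    exact absurd hκ (not_lt.2 (h1.trans (h2.trans h3)))
  refine ⟨κ, ⟨hκ, fun m hm => csInf_le' hm⟩, ⟨hκω.le, ?_⟩, hκω, hκc, ?_⟩
  · have h1 : κ ≤ Order.cof W := Order.le_cof_iff.2 hcof
    rw [Ordinal.cof_toType] at h1
    exact h1
  · refine le_antisymm (powerlt_le.2 hmin) ?_
    rw [← two_power_aleph0]
    exact le_powerlt 2 hκω

section counting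

variable {W : Type}

theorem le_two_powerlt : #W ≤ 2 ^< #W := by
  by_contra h
  rw [not_le] at h
  exact absurd (le_powerlt 2 h) (not_le.2 (cantor _))

variable [LinearOrder W]

/-- `(2 ^< κ) ^ μ ≤ 2 ^< κ` for `μ < κ`, `κ` regular -/
theorem powerlt_power_le (hB : ∀ s : Set W, #s < #W → ∃ b, ∀ x ∈ s, x < b)
    (hI : ∀ a : W, #(Set.Iic a) < #W) (hω : ℵ₀ < #W) {μ : Type} (hμ : #μ < #W) :
    (2 ^< #W) ^ #μ ≤ 2 ^< #W := by
  classical
  have hlarge : #W ≤ 2 ^< #W := le_two_powerlt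
  have hinf : ℵ₀ ≤ 2 ^< #W := hω.le.trans hlarge
  let E : Type := {s : Set W // ∃ b, ∀ x ∈ s, x < b}
  have hE : 2 ^< #W ≤ #E := by
    rw [powerlt_le]
    intro x hx
    obtain ⟨s, hs⟩ := le_mk_iff_exists_set.1 hx.le
    have hs' : #s < #W := hs.trans_lt hx
    obtain ⟨b, hb⟩ := hB s hs'
    rw [← hs, ← mk_set]
    refine mk_le_of_injective (f := fun t : Set s => (⟨Subtype.val '' t, b, ?_⟩ : E)) ?_
    · rintro _ ⟨y, -, rfl⟩
      exact hb _ y.2
    · intro t u htu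
      have h := congrArg Subtype.val htu
      exact Set.image_injective.2 Subtype.val_injective h
  let G : Set (Set (μ × W)) := ⋃ b : W, 𝒫 (Set.univ ×ˢ Set.Iic b)
  have h1 : (2 ^< #W) ^ #μ ≤ #(μ → E) := by
    have h2 : #(μ → E) = #E ^ #μ := by simp
    rw [h2]
    exact Cardinal.power_le_power_right hE
  have h2 : #(μ → E) ≤ #G := by
    have hb : ∀ g : μ → E, {p : μ × W | p.2 ∈ (g p.1).1} ∈ G := by
      intro g
      choose b hb using fun i => (g i).2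
      obtain ⟨c, hc⟩ := hB (range b) (mk_range_le.trans_lt hμ)
      refine mem_iUnion.2 ⟨c, ?_⟩
      rintro ⟨i, x⟩ hx
      exact ⟨Set.mem_univ _, ((hb i x hx).trans (hc _ ⟨i, rfl⟩)).le⟩
    refine mk_le_of_injective (f := fun g : μ → E => (⟨_, hb g⟩ : G)) ?_
    intro g g' hgg
    have h := congrArg Subtype.val hgg
    funext i
    refine Subtype.ext ?_
    ext x
    exact Set.ext_iff.1 h (i, x)
  have h3 : #G ≤ 2 ^< #W := by
    refine (mk_iUnion_le_sum_mk).trans ?_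
    refine (Cardinal.sum_le_sum _ (fun _ : W => 2 ^< #W) ?_).trans ?_
    · intro b
      rw [mk_powerset]
      refine le_powerlt 2 ?_
      rw [Cardinal.mk_setProd, mk_univ]
      exact Cardinal.mul_lt_of_lt hω.le hμ (hI b)
    · rw [Cardinal.sum_const']
      exact (mul_le_mul' hlarge le_rfl).trans (mul_eq_self hinf).le
  exact h1.trans (h2.trans h3)

/-- at most `2 ^< κ` terms with fewer than `κ` arguments in each step -/
theorem card_terms (hB : ∀ s : Set W, #s < #W → ∃ b, ∀ x ∈ s, x < b)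
    (hI : ∀ a : W, #(Set.Iic a) < #W) (hω : ℵ₀ < #W) {α : Type} {β : α → Type}
    (hα : #α ≤ 2 ^< #W) (hβ : ∀ a, #(β a) < #W) : #(WType β) ≤ 2 ^< #W := by
  have hinf : ℵ₀ ≤ 2 ^< #W := hω.le.trans le_two_powerlt
  refine WType.cardinalMk_le_of_le ?_
  refine (Cardinal.sum_le_sum _ (fun _ : α => 2 ^< #W) fun a =>
    powerlt_power_le hB hI hω (hβ a)).trans ?_
  rw [Cardinal.sum_const']
  exact (mul_le_mul' hα le_rfl).trans (mul_eq_self hinf).le

end counting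

section core

/-- the arities: one constant and the given operations -/
def Ar {Θ : Type} (J : Θ → Type) : Option Θ → Type
  | none => Empty
  | some θ => J θ

/-- the value of a term -/
def ev (I : Set ℝ) {Θ : Type} {J : Θ → Type} (R : ∀ θ, ℝ → Set (J θ) → Prop) :
    WType (Ar J) → Set ℝ :=
  WType.elim (Set ℝ) fun p => match p with
    | ⟨none, _⟩ => ∅
    | ⟨some θ, f⟩ => {x | x ∈ I ∧ R θ x {i : J θ | x ∈ f i}}

/-- The main construction. -/
theorem core {W : Type} [LinearOrder W] [WellFoundedLT W] [Nonempty W]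
    (hB : ∀ s : Set W, #s < #W → ∃ b, ∀ x ∈ s, x < b)
    (hIic : ∀ a : W, #(Set.Iic a) < #W) (hω : ℵ₀ < #W)
    (I : Set ℝ) (e : W → ℝ) (hinj : Function.Injective e) (heI : ∀ w, e w ∈ I)
    (Θ : Type) (J : Θ → Type) (R : ∀ θ, ℝ → Set (J θ) → Prop) (hΘ : #Θ ≤ 2 ^< #W)
    (hJ : ∀ θ, #(J θ) < #W) :
    ∃ N : Set (Set ℝ), (∀ A ∈ N, A ⊆ I) ∧
      (∀ (θ : Θ) (A : J θ → Set ℝ), (∀ i, A i ∈ N) → {x | x ∈ I ∧ R θ x {i | x ∈ A i}} ∈ N) ∧
      (∀ T ⊆ I, Small (e ⁻¹' T) → T ∈ N) ∧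
      ∃ (G : Type) (X : G → Set ℝ), #G = 2 ^ #W ∧ (∀ U, X U ⊆ I) ∧
        ∀ V, #{U | symmDiff (X U) (X V) ∈ N} ≤ 2 ^< #W := by
  classical
  have hinf : ℵ₀ ≤ 2 ^< #W := hω.le.trans le_two_powerlt
  let N : Set (Set ℝ) := {X | X ⊆ I ∧ ∃ t : WType (Ar J), Small (e ⁻¹' symmDiff X (ev I R t))}
  refine ⟨N, fun A hA => hA.1, ?_, ?_, ?_⟩
  · intro θ A hA
    refine ⟨fun x hx => hx.1, ?_⟩
    choose t ht using fun i => (hA i).2
    refine ⟨WType.mk (some θ) t, (Small.iUnion_lt hB (hJ θ) ht).mono ?_⟩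
    intro w hw
    by_contra hcon
    have h1 : {i : J θ | e w ∈ A i} = {i : J θ | e w ∈ ev I R (t i)} := by
      ext i
      by_contra h2
      apply hcon
      refine mem_iUnion.2 ⟨i, ?_⟩
      change e w ∈ symmDiff (A i) (ev I R (t i))
      rw [Set.mem_symmDiff]
      change ¬ (e w ∈ A i ↔ e w ∈ ev I R (t i)) at h2
      tauto
    change e w ∈ symmDiff {x | x ∈ I ∧ R θ x {i | x ∈ A i}}
      {x | x ∈ I ∧ R θ x {i : J θ | x ∈ ev I R (t i)}} at hw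
    rw [Set.mem_symmDiff] at hw
    change (e w ∈ I ∧ R θ (e w) {i : J θ | e w ∈ A i}) ∧
        ¬ (e w ∈ I ∧ R θ (e w) {i : J θ | e w ∈ ev I R (t i)}) ∨
      (e w ∈ I ∧ R θ (e w) {i : J θ | e w ∈ ev I R (t i)}) ∧
        ¬ (e w ∈ I ∧ R θ (e w) {i : J θ | e w ∈ A i}) at hw
    rw [h1] at hw
    tauto
  · intro T hT hs
    refine ⟨hT, WType.mk none (fun i : Empty => i.elim), ?_⟩
    change Small (e ⁻¹' symmDiff T ∅)
    have : symmDiff T (∅ : Set ℝ) = T := by simp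
    rw [this]
    exact hs
  · obtain ⟨f, Γ, hΓ, hns⟩ := exists_split hB hIic hω
    let X : Set Γ → Set ℝ := fun U => e '' {δ | δ ∈ LimSet W ∧ ∃ γ ∈ U, f δ = (γ : W)}
    refine ⟨Set Γ, X, ?_, ?_, ?_⟩
    · rw [mk_set, le_antisymm (mk_subtype_le (fun x => x ∈ Γ)) hΓ]
    · rintro U _ ⟨w, -, rfl⟩
      exact heI w
    · intro V
      -- the classes are bounded by the number of terms
      have hmem : ∀ (U : Set Γ) (γ : Γ) (δ : W), δ ∈ LimSet W ∩ f ⁻¹' {(γ : W)} →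
          (e δ ∈ X U ↔ γ ∈ U) := by
        rintro U γ δ ⟨h1, h2⟩
        constructor
        · rintro ⟨δ', ⟨-, γ', hγ', h4⟩, h5⟩
          have h6 : δ' = δ := hinj h5
          rw [h6] at h4
          have h7 : γ' = γ := Subtype.ext (h4.symm.trans h2)
          rw [← h7]
          exact hγ'
        · intro hγ
          exact ⟨δ, ⟨h1, γ, hγ, h2⟩, rfl⟩
      have hN : ∀ U : {U : Set Γ // symmDiff (X U) (X V) ∈ N}, ∃ t : WType (Ar J),
          Small (e ⁻¹' symmDiff (symmDiff (X U.1) (X V)) (ev I R t)) := fun U => U.2.2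
      choose t ht using hN
      have hti : Function.Injective t := by
        intro U U' hUU
        refine Subtype.ext ?_
        ext γ
        by_contra hne
        refine hns γ γ.2 (((ht U).union (ht U')).mono ?_)
        intro δ hδ
        have h1 := hmem U.1 γ δ hδ
        have h2 := hmem U'.1 γ δ hδ
        rw [← hUU]
        change e δ ∈ symmDiff (symmDiff (X U.1) (X V)) (ev I R (t U)) ∨
          e δ ∈ symmDiff (symmDiff (X U'.1) (X V)) (ev I R (t U))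
        simp only [Set.mem_symmDiff]
        tauto
      refine (mk_le_of_injective hti).trans (card_terms hB hIic hω ?_ ?_)
      · rw [mk_option]
        exact (add_le_add hΘ (one_le_aleph0.trans hinf)).trans (add_eq_self hinf).le
      · rintro (_ | θ)
        · change #Empty < #W
          rw [mk_eq_zero]
          exact (aleph0_pos).trans hω
        · exact hJ θ

/-- If `N` is closed under symmetric differences and all the classes are small, there are many classes. -/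
theorem many_classes {N : Set (Set ℝ)} {c d : Cardinal.{0}} (hd : ℵ₀ ≤ d) (hcd : c < d)
    (h0 : ∅ ∈ N) (hN : ∀ A ∈ N, ∀ B ∈ N, symmDiff A B ∈ N) {G : Type} (X : G → Set ℝ)
    (hG : #G = d) (hX : ∀ V, #{U | symmDiff (X U) (X V) ∈ N} ≤ c) :
    ∃ 𝒳 : Set (Set ℝ), #𝒳 = d ∧ (∀ Y ∈ 𝒳, ∃ U, Y = X U) ∧
      ∀ Y ∈ 𝒳, ∀ Z ∈ 𝒳, Y ≠ Z → symmDiff Y Z ∉ N := by
  classical
  let r : Setoid G :=
    { r := fun U V => symmDiff (X U) (X V) ∈ N
      iseqv :=
        { refl := fun U => by rw [symmDiff_self]; exact h0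
          symm := fun {U V} h => by rw [symmDiff_comm]; exact h
          trans := fun {U V Z} h1 h2 => by
            have h3 := hN _ h1 _ h2
            rw [symmDiff_assoc, symmDiff_symmDiff_cancel_left] at h3
            exact h3 } }
  let Q := Quotient r
  have h1 : #G = #(Σ q : Q, {U // Quotient.mk r U = q}) :=
    Cardinal.mk_congr (Equiv.sigmaFiberEquiv (Quotient.mk r)).symm
  have h2 : #G ≤ #Q * c := by
    rw [h1, mk_sigma]
    refine (Cardinal.sum_le_sum _ (fun _ : Q => c) ?_).trans (Cardinal.sum_const' _ _).le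
    intro q
    refine le_trans (mk_subtype_le_of_subset ?_) (hX q.out)
    intro U hU
    change symmDiff (X U) (X q.out) ∈ N
    have h3 : Quotient.mk r U = Quotient.mk r q.out := by
      rw [Quotient.out_eq]; exact hU
    exact Quotient.exact h3
  have h3 : #Q = d := by
    refine le_antisymm (hG ▸ mk_quotient_le) ?_
    by_contra h
    rw [not_le] at h
    rw [hG] at h2
    exact absurd h2 (not_le.2 (Cardinal.mul_lt_of_lt hd h hcd))
  have h4 : ∀ q q' : Q, symmDiff (X q.out) (X q'.out) ∈ N → q = q' := by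
    intro q q' h
    rw [← Quotient.out_eq q, ← Quotient.out_eq q']
    exact Quotient.sound h
  have h5 : Function.Injective fun q : Q => X q.out := by
    intro q q' h
    refine h4 q q' ?_
    change X q.out = X q'.out at h
    rw [h, symmDiff_self]
    exact h0
  refine ⟨range fun q : Q => X q.out, ?_, ?_, ?_⟩
  · rw [mk_range_eq _ h5, h3]
  · rintro _ ⟨q, rfl⟩
    exact ⟨_, rfl⟩
  · rintro _ ⟨q, rfl⟩ _ ⟨q', rfl⟩ hne hmem
    exact hne (congrArg (fun q : Q => X q.out) (h4 q q' hmem))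

end core

theorem card_borel_le : #{B : Set ℝ // MeasurableSet B} ≤ 𝔠 := by
  have h := MeasurableSpace.cardinal_measurableSet_le_continuum
    (s := MeasurableSpace.countableGeneratingSet ℝ)
    ((MeasurableSpace.countable_countableGeneratingSet (α := ℝ)).le_aleph0.trans aleph0_le_continuum)
  rw [MeasurableSpace.generateFrom_countableGeneratingSet] at h
  exact h

/-- The construction for one cardinal. -/
theorem main {l : Cardinal.{0}} (hl : l.IsRegular) (hlω : ℵ₀ < l) (hlc : l ≤ 𝔠) (hl2 : 2 ^< l < 2 ^ l)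
    (I : Set ℝ) (hI : I.OrdConnected) (hI2 : I.Nontrivial)
    (𝒜 : Set (Set ℝ)) (h𝒜I : ∀ A ∈ 𝒜, A ⊆ I) (h𝒜 : #𝒜 ≤ 2 ^< l)
    (Θ : Type) (J : Θ → Type) (R : ∀ θ, ℝ → Set (J θ) → Prop) (hΘ : #Θ ≤ 2 ^< l)
    (hJ : ∀ θ, #(J θ) < l) :
    ∃ N : Set (Set ℝ),
      (∀ A ∈ N, A ⊆ I) ∧
      (∀ J : Set ℝ, J ⊆ I → J.OrdConnected → J ∈ N) ∧
      (∀ A ∈ N, I \ A ∈ N) ∧
      (∀ A : ℕ → Set ℝ, (∀ n, A n ∈ N) → (⋃ n, A n) ∈ N) ∧
      (∀ P : Set (Set ℝ), P.PairwiseDisjoint id → ⋃₀ P = I → (∀ p ∈ P, p.Nontrivial) →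
        ∃ S ∈ N, ∀ p ∈ P, ∃! x, x ∈ S ∩ p) ∧
      (∃ X : Set ℝ, X ⊆ I ∧ X ∉ N) ∧
      𝒜 ⊆ N ∧
      (∀ (ι : Type) (A : ι → Set ℝ), #ι < l → (∀ i, A i ∈ N) → (⋃ i, A i) ∈ N) ∧
      (∀ (θ : Θ) (A : J θ → Set ℝ), (∀ i, A i ∈ N) → {x | x ∈ I ∧ R θ x {i | x ∈ A i}} ∈ N) ∧
      (∀ P : Set (Set ℝ), P.PairwiseDisjoint id → ⋃₀ P = I → (∀ p ∈ P, p.Nonempty) →
        ∃ M : Set ℝ, M ⊆ I ∧ (∀ p ∈ P, ∃! x, x ∈ M ∩ p) ∧
          ∀ T : Set ℝ, T ⊆ I \ M → (∀ p ∈ P, #(T ∩ p : Set ℝ) < l) → T ∈ N) ∧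
      ∃ 𝒳 : Set (Set ℝ), #𝒳 = 2 ^ l ∧ (∀ X ∈ 𝒳, X ⊆ I) ∧
        ∀ X ∈ 𝒳, ∀ Y ∈ 𝒳, X ≠ Y → symmDiff X Y ∉ N := by
  classical
  obtain ⟨W, _, _, hne, hW, hB, hIic⟩ := regular_order hl hlω
  have hinf : ℵ₀ ≤ 2 ^< l := by
    rw [← hW]
    exact (hW ▸ hlω).le.trans le_two_powerlt
  have hcl : 𝔠 ≤ 2 ^< l := by
    rw [← two_power_aleph0]
    exact le_powerlt 2 hlω
  -- embedding of `W` into `I`
  have hIcard : 𝔠 ≤ #I := by
    obtain ⟨a, ha, b, hb, hab⟩ := hI2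
    rcases lt_or_gt_of_ne hab with h | h
    · rw [← mk_Icc_real h]
      exact mk_le_mk_of_subset (hI.out ha hb)
    · rw [← mk_Icc_real h]
      exact mk_le_mk_of_subset (hI.out hb ha)
  obtain ⟨e0⟩ := Cardinal.le_def _ _ |>.1 ((hW.trans_le hlc).trans hIcard)
  let e : W → ℝ := fun w => (e0 w : ℝ)
  have heI : ∀ w, e w ∈ I := fun w => (e0 w).2
  have hinj : Function.Injective e := fun a b h => e0.injective (Subtype.ext h)
  -- the operations: given sets, subintervals, complement, unions, given operations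
  let 𝒥 : Set (Set ℝ) := {S | S.OrdConnected}
  have h𝒥 : #𝒥 ≤ 2 ^< l := by
    refine le_trans ?_ hcl
    refine le_trans (mk_le_mk_of_subset (t := {B : Set ℝ | MeasurableSet B}) ?_) card_borel_le
    intro S hS
    have hS' : S.OrdConnected := hS
    exact hS'.measurableSet
  let Θ' : Type := (↥(𝒜 ∪ 𝒥) ⊕ Unit) ⊕ (W ⊕ Θ)
  let J' : Θ' → Type := Sum.elim (Sum.elim (fun _ => Empty) (fun _ => Unit))
    (Sum.elim (fun a => Set.Iic a) J)
  let R' : ∀ θ : Θ', ℝ → Set (J' θ) → Prop := fun θ => match θ with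
    | Sum.inl (Sum.inl A) => fun x _ => x ∈ (A : Set ℝ)
    | Sum.inl (Sum.inr _) => fun _ s => () ∉ (s : Set Unit)
    | Sum.inr (Sum.inl a) => fun _ s => (s : Set (Set.Iic a)).Nonempty
    | Sum.inr (Sum.inr θ) => fun x s => R θ x s
  have hΘ' : #Θ' ≤ 2 ^< #W := by
    rw [hW]
    have h1 : #(𝒜 ∪ 𝒥 : Set (Set ℝ)) ≤ 2 ^< l :=
      (mk_union_le _ _).trans ((add_le_add h𝒜 h𝒥).trans (add_eq_self hinf).le)
    have h2 : #W ≤ 2 ^< l := by
      rw [← hW]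
      exact le_two_powerlt
    have h3 : #Θ' = (#(𝒜 ∪ 𝒥 : Set (Set ℝ)) + 1) + (#W + #Θ) := by
      simp only [Θ', mk_sum, lift_uzero, mk_unit]
    rw [h3]
    exact (add_le_add ((add_le_add h1 (one_le_aleph0.trans hinf)).trans (add_eq_self hinf).le)
      ((add_le_add h2 hΘ).trans (add_eq_self hinf).le)).trans (add_eq_self hinf).le
  have hJ' : ∀ θ, #(J' θ) < #W := by
    rintro ((A | u) | (a | θ))
    · change #Empty < #W
      rw [mk_eq_zero, hW]
      exact aleph0_pos.trans hlω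
    · change #Unit < #W
      rw [mk_unit, hW]
      exact one_lt_aleph0.trans hlω
    · exact hIic a
    · change #(J θ) < #W
      rw [hW]
      exact hJ θ
  obtain ⟨N, hN1, hN2, hN3, G, X, hG, hXI, hXc⟩ :=
    core hB hIic (hW ▸ hlω) I e hinj heI Θ' J' R' hΘ' hJ'
  -- consequences of the closure property
  have hset : ∀ A ∈ 𝒜 ∪ 𝒥, A ⊆ I → A ∈ N := by
    intro A hA hAI
    have h := hN2 (Sum.inl (Sum.inl ⟨A, hA⟩)) (fun i : Empty => i.elim) (fun i : Empty => i.elim)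
    have h2 : {x | x ∈ I ∧ R' (Sum.inl (Sum.inl ⟨A, hA⟩)) x
        {i | x ∈ (fun i : Empty => (i.elim : Set ℝ)) i}} = A := by
      ext x
      change (x ∈ I ∧ x ∈ A) ↔ x ∈ A
      exact ⟨fun h => h.2, fun h => ⟨hAI h, h⟩⟩
    rw [h2] at h
    exact h
  have hcompl : ∀ A ∈ N, I \ A ∈ N := by
    intro A hA
    have h := hN2 (Sum.inl (Sum.inr ())) (fun _ : Unit => A) (fun _ => hA)
    exact h
  have hempty : ∅ ∈ N := hset ∅ (Or.inr Set.ordConnected_empty) (empty_subset I)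
  have hunion : ∀ (ι : Type) (A : ι → Set ℝ), #ι < l → (∀ i, A i ∈ N) → (⋃ i, A i) ∈ N := by
    intro ι A hι hA
    rw [← hW] at hι
    obtain ⟨j⟩ := Cardinal.le_def _ _ |>.1 hι.le
    obtain ⟨b, hb⟩ := hB (range j) (mk_range_le.trans_lt hι)
    let A' : Set.Iic b → Set ℝ := fun w => ⋃ i, {x | j i = w.1 ∧ x ∈ A i}
    have hA' : ∀ w, A' w ∈ N := by
      intro w
      by_cases hw : ∃ i, j i = w.1
      · obtain ⟨i, hi⟩ := hw
        have h1 : A' w = A i := by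
          ext x
          constructor
          · intro hx
            obtain ⟨i', h2, h3⟩ := mem_iUnion.1 hx
            have h4 : i' = i := j.injective (h2.trans hi.symm)
            rw [← h4]
            exact h3
          · intro hx
            exact mem_iUnion.2 ⟨i, hi, hx⟩
        rw [h1]
        exact hA i
      · have h1 : A' w = ∅ := by
          refine eq_empty_of_forall_notMem fun x hx => ?_
          obtain ⟨i', h2, -⟩ := mem_iUnion.1 hx
          exact hw ⟨i', h2⟩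
        rw [h1]
        exact hempty
    have h := hN2 (Sum.inr (Sum.inl b)) A' hA'
    have h2 : {x | x ∈ I ∧ R' (Sum.inr (Sum.inl b)) x {w | x ∈ A' w}} = ⋃ i, A i := by
      ext x
      change (x ∈ I ∧ {w : Set.Iic b | x ∈ A' w}.Nonempty) ↔ _
      constructor
      · rintro ⟨-, w, hw⟩
        obtain ⟨i, -, h4⟩ := mem_iUnion.1 hw
        exact mem_iUnion.2 ⟨i, h4⟩
      · intro hx
        obtain ⟨i, hi⟩ := mem_iUnion.1 hx
        exact ⟨hN1 _ (hA i) hi, ⟨j i, (hb _ ⟨i, rfl⟩).le⟩, mem_iUnion.2 ⟨i, rfl, hi⟩⟩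
    rw [h2] at h
    exact h
  have hsymm : ∀ A ∈ N, ∀ B ∈ N, symmDiff A B ∈ N := by
    have hun2 : ∀ A ∈ N, ∀ B ∈ N, A ∪ B ∈ N := by
      intro A hA B hB'
      have h := hunion Bool (fun b => cond b A B) (by
        refine lt_of_lt_of_le (lt_aleph0_of_finite _) hlω.le) (by
          rintro (_ | _)
          · exact hB'
          · exact hA)
      rw [← Set.union_eq_iUnion] at h
      exact h
    intro A hA B hB'
    have hAI := hN1 A hA
    have hBI := hN1 B hB'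
    have h1 : symmDiff A B = (I \ ((I \ A) ∪ B)) ∪ (I \ ((I \ B) ∪ A)) := by
      ext x
      rw [Set.mem_symmDiff]
      simp only [mem_union, mem_sdiff]
      have h2 := @hAI x
      have h3 := @hBI x
      tauto
    rw [h1]
    exact hun2 _ (hcompl _ (hun2 _ (hcompl A hA) _ hB')) _ (hcompl _ (hun2 _ (hcompl B hB') _ hA))
  -- selectors
  have hsel : ∀ P : Set (Set ℝ), P.PairwiseDisjoint id → ⋃₀ P = I → (∀ p ∈ P, p.Nonempty) →
      ∃ M : Set ℝ, M ⊆ I ∧ (∀ p ∈ P, ∃! x, x ∈ M ∩ p) ∧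
        ∀ T : Set ℝ, T ⊆ I \ M → (∀ p ∈ P, #(T ∩ p : Set ℝ) < l) → T ∈ N := by
    intro P hPd hPu hPn
    have huniq : ∀ p ∈ P, ∀ q ∈ P, ∀ x, x ∈ p → x ∈ q → p = q := by
      intro p hp q hq x hxp hxq
      by_contra hne'
      exact Set.disjoint_left.1 (hPd hp hq hne') hxp hxq
    -- the point chosen in a piece
    have hpt : ∀ p : Set ℝ, ∃ x : ℝ, p ∈ P → x ∈ p ∧ ∀ a, e a ∈ p → ∃ ξ, e ξ = x ∧ ξ ≤ a := by
      intro p
      by_cases hp : p ∈ P
      · by_cases h2 : (e ⁻¹' p).Nonempty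
        · refine ⟨e (WellFounded.min (wellFounded_lt (α := W)) _ h2), fun _ =>
            ⟨WellFounded.min_mem (wellFounded_lt (α := W)) _ h2, fun a ha =>
              ⟨_, rfl, not_lt.1 (WellFounded.not_lt_min (wellFounded_lt (α := W)) (e ⁻¹' p) ha)⟩⟩⟩
        · obtain ⟨x, hx⟩ := hPn p hp
          exact ⟨x, fun _ => ⟨hx, fun a ha => absurd ⟨a, ha⟩ h2⟩⟩
      · exact ⟨0, fun h => absurd h hp⟩
    choose c hc using hpt
    refine ⟨c '' P, ?_, ?_, ?_⟩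
    · rintro _ ⟨p, hp, rfl⟩
      rw [← hPu]
      exact ⟨p, hp, (hc p hp).1⟩
    · intro p hp
      refine ⟨c p, ⟨⟨p, hp, rfl⟩, (hc p hp).1⟩, ?_⟩
      rintro y ⟨⟨q, hq, rfl⟩, hy⟩
      rw [huniq q hq p hp _ (hc q hq).1 hy]
    · intro T hT hTp
      refine hN3 T (fun x hx => (hT hx).1) ?_
      have hpc : ∀ ξ : W, ∃ p ∈ P, e ξ ∈ p := by
        intro ξ
        have := heI ξ
        rw [← hPu] at this
        exact this
      choose pc hpc1 hpc2 using hpc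
      have hbd : ∀ ξ : W, ∃ b, ∀ a, e a ∈ T ∩ pc ξ → a < b := by
        intro ξ
        obtain ⟨b, hb⟩ := hB (e ⁻¹' (T ∩ pc ξ)) (by
          rw [hW]
          exact (mk_preimage_of_injective e _ hinj).trans_lt (hTp _ (hpc1 ξ)))
        exact ⟨b, fun a ha => hb a ha⟩
      choose g hg using hbd
      refine ⟨g, ?_⟩
      intro a ha
      have ha' : e a ∈ T := ha
      obtain ⟨ξ, h1, h2⟩ := (hc (pc a) (hpc1 a)).2 a (hpc2 a)
      have h3 : ξ ≠ a := by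
        intro h
        apply (hT ha').2
        refine ⟨pc a, hpc1 a, ?_⟩
        rw [← h1, h]
      have h4 : pc ξ = pc a := by
        refine huniq _ (hpc1 ξ) _ (hpc1 a) (e ξ) (hpc2 ξ) ?_
        rw [h1]
        exact (hc (pc a) (hpc1 a)).1
      refine ⟨ξ, lt_of_le_of_ne h2 h3, ?_⟩
      refine (hg ξ a ⟨ha', ?_⟩).le
      rw [h4]
      exact hpc2 a
  -- many classes
  obtain ⟨𝒳, h𝒳1, h𝒳2, h𝒳3⟩ := many_classes (N := N) (c := 2 ^< l) (d := 2 ^ l)
    (hinf.trans hl2.le) hl2 hempty hsymm X (by rw [hG, hW]) (by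
      intro V
      have h := hXc V
      rw [hW] at h
      exact h)
  refine ⟨N, hN1, fun S hS hSc => hset S (Or.inr hSc) hS, hcompl, ?_, ?_, ?_,
    fun A hA => hset A (Or.inl hA) (h𝒜I A hA), hunion, ?_, hsel, 𝒳, h𝒳1, ?_, h𝒳3⟩
  · intro A hA
    refine hunion ℕ A ?_ hA
    rw [mk_nat]
    exact hlω
  · intro P hPd hPu hPn
    obtain ⟨M, hMI, hM, hT⟩ := hsel P hPd hPu (fun p hp => (hPn p hp).nonempty)
    -- a selector disjoint from `M`
    have hex : ∀ p : Set ℝ, ∃ x : ℝ, p ∈ P → x ∈ p ∧ x ∉ M := by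
      intro p
      by_cases hp : p ∈ P
      · obtain ⟨a, ha, b, hb, hab⟩ := hPn p hp
        by_cases haM : a ∈ M
        · refine ⟨b, fun _ => ⟨hb, fun hbM => hab ?_⟩⟩
          exact (hM p hp).unique ⟨haM, ha⟩ ⟨hbM, hb⟩
        · exact ⟨a, fun _ => ⟨ha, haM⟩⟩
      · exact ⟨0, fun h => absurd h hp⟩
    choose c hc using hex
    have huniq : ∀ p ∈ P, ∀ q ∈ P, ∀ x, x ∈ p → x ∈ q → p = q := by
      intro p hp q hq x hxp hxq
      by_contra hne'
      exact Set.disjoint_left.1 (hPd hp hq hne') hxp hxq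
    have hcp : ∀ p ∈ P, ∀ y, y ∈ (c '' P) ∩ p → y = c p := by
      rintro p hp y ⟨⟨q, hq, rfl⟩, hy⟩
      rw [huniq q hq p hp _ (hc q hq).1 hy]
    refine ⟨c '' P, hT _ ?_ ?_, ?_⟩
    · rintro _ ⟨p, hp, rfl⟩
      refine ⟨?_, (hc p hp).2⟩
      rw [← hPu]
      exact ⟨p, hp, (hc p hp).1⟩
    · intro p hp
      have h1 : ((c '' P) ∩ p : Set ℝ).Subsingleton := by
        intro y hy z hz
        rw [hcp p hp y hy, hcp p hp z hz]
      exact (lt_of_le_of_lt (Cardinal.mk_le_one_iff_set_subsingleton.2 h1) one_lt_aleph0).trans hlω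
    · intro p hp
      exact ⟨c p, ⟨⟨p, hp, rfl⟩, (hc p hp).1⟩, fun y hy => hcp p hp y hy⟩
  · -- not everything
    by_contra hcon
    push Not at hcon
    have h1 : (2 : Cardinal) ^ l ≤ 1 := by
      rw [← h𝒳1]
      refine Cardinal.mk_le_one_iff_set_subsingleton.2 ?_
      intro Y hY Z hZ
      by_contra hne'
      refine h𝒳3 Y hY Z hZ hne' (hcon _ ?_)
      obtain ⟨U, rfl⟩ := h𝒳2 Y hY
      obtain ⟨V, rfl⟩ := h𝒳2 Z hZ
      intro x hx
      rcases hx with ⟨hx, -⟩ | ⟨hx, -⟩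
      · exact hXI _ hx
      · exact hXI _ hx
    exact absurd (hinf.trans (hl2.le.trans h1)) (not_le.2 one_lt_aleph0)
  · intro θ A hA
    exact hN2 (Sum.inr (Sum.inr θ)) A hA
  · intro Y hY
    obtain ⟨U, rfl⟩ := h𝒳2 Y hY
    exact hXI U

/-- Answer to Q1 (in the negative) and more.

First part: for every nondegenerate interval `I` of the real line there is a family `N` of subsets of `I` which
contains all subintervals, is a sigma-algebra on `I`, contains a selector for each partition of `I` into pieces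
having at least two elements, and yet is not the full power set of `I`.

Second part: the least cardinal `k` with `2 ^ k > 𝔠` is a regular cardinal `l` with `ℵ₀ < l ≤ 𝔠` and `2 ^< l < 2 ^ l`
(and `2 ^< k = 𝔠`).

Third part: for every such cardinal `l` and every nondegenerate interval `I`, given any family `𝒜` of at most `2 ^< l`
subsets of `I` and any family of at most `2 ^< l` operations, each with fewer than `l` arguments (`R θ x s` decides
whether `x` is in the value from the set `s` of the indices `i` with `x ∈ A i`), there is a family `N` as in the first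
part which moreover contains `𝒜`, is closed under unions of fewer than `l` sets and under the given operations, such
that every partition of `I` has a selector `M` for which every subset of `I \ M` with fewer than `l` points in each
piece belongs to `N`, and there are `2 ^ l` subsets of `I` with all the symmetric differences outside `N`. -/
theorem result :
    (∀ I : Set ℝ, I.OrdConnected → I.Nontrivial →
      ∃ N : Set (Set ℝ),
        (∀ A ∈ N, A ⊆ I) ∧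
        (∀ J : Set ℝ, J ⊆ I → J.OrdConnected → J ∈ N) ∧
        (∀ A ∈ N, I \ A ∈ N) ∧
        (∀ A : ℕ → Set ℝ, (∀ n, A n ∈ N) → (⋃ n, A n) ∈ N) ∧
        (∀ P : Set (Set ℝ), P.PairwiseDisjoint id → ⋃₀ P = I → (∀ p ∈ P, p.Nontrivial) →
          ∃ S ∈ N, ∀ p ∈ P, ∃! x, x ∈ S ∩ p) ∧
        ∃ X : Set ℝ, X ⊆ I ∧ X ∉ N) ∧
    (∃ k : Cardinal.{0}, IsLeast {m : Cardinal.{0} | 𝔠 < 2 ^ m} k ∧
      k.IsRegular ∧ ℵ₀ < k ∧ k ≤ 𝔠 ∧ 2 ^< k = 𝔠 ∧ 2 ^< k < 2 ^ k) ∧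
    ∀ l : Cardinal.{0}, l.IsRegular → ℵ₀ < l → l ≤ 𝔠 → 2 ^< l < 2 ^ l →
    ∀ I : Set ℝ, I.OrdConnected → I.Nontrivial →
    ∀ 𝒜 : Set (Set ℝ), (∀ A ∈ 𝒜, A ⊆ I) → #𝒜 ≤ 2 ^< l →
    ∀ (Θ : Type) (J : Θ → Type) (R : ∀ θ, ℝ → Set (J θ) → Prop),
      #Θ ≤ 2 ^< l → (∀ θ, #(J θ) < l) →
    ∃ N : Set (Set ℝ),
      (∀ A ∈ N, A ⊆ I) ∧
      (∀ J : Set ℝ, J ⊆ I → J.OrdConnected → J ∈ N) ∧
      (∀ A ∈ N, I \ A ∈ N) ∧
      (∀ A : ℕ → Set ℝ, (∀ n, A n ∈ N) → (⋃ n, A n) ∈ N) ∧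
      (∀ P : Set (Set ℝ), P.PairwiseDisjoint id → ⋃₀ P = I → (∀ p ∈ P, p.Nontrivial) →
        ∃ S ∈ N, ∀ p ∈ P, ∃! x, x ∈ S ∩ p) ∧
      (∃ X : Set ℝ, X ⊆ I ∧ X ∉ N) ∧
      𝒜 ⊆ N ∧
      (∀ (ι : Type) (A : ι → Set ℝ), #ι < l → (∀ i, A i ∈ N) → (⋃ i, A i) ∈ N) ∧
      (∀ (θ : Θ) (A : J θ → Set ℝ), (∀ i, A i ∈ N) → {x | x ∈ I ∧ R θ x {i | x ∈ A i}} ∈ N) ∧
      (∀ P : Set (Set ℝ), P.PairwiseDisjoint id → ⋃₀ P = I → (∀ p ∈ P, p.Nonempty) →
        ∃ M : Set ℝ, M ⊆ I ∧ (∀ p ∈ P, ∃! x, x ∈ M ∩ p) ∧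
          ∀ T : Set ℝ, T ⊆ I \ M → (∀ p ∈ P, #(T ∩ p : Set ℝ) < l) → T ∈ N) ∧
      ∃ 𝒳 : Set (Set ℝ), #𝒳 = 2 ^ l ∧ (∀ X ∈ 𝒳, X ⊆ I) ∧
        ∀ X ∈ 𝒳, ∀ Y ∈ 𝒳, X ≠ Y → symmDiff X Y ∉ N := by
  obtain ⟨k, hk1, hk2, hk3, hk4, hk5⟩ := exists_least
  have hk6 : 2 ^< k < 2 ^ k := by rw [hk5]; exact hk1.1
  refine ⟨?_, ⟨k, hk1, hk2, hk3, hk4, hk5, hk6⟩, ?_⟩
  · intro I hI hI2
    obtain ⟨N, h1, h2, h3, h4, h5, h6, -⟩ := main hk2 hk3 hk4 hk6 I hI hI2 ∅
      (fun A hA => absurd hA (notMem_empty A)) (by simp) Empty (fun _ => Empty)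
      (fun θ _ _ => θ.elim) (by simp) (fun θ => θ.elim)
    exact ⟨N, h1, h2, h3, h4, h5, h6⟩
  · intro l hl hlω hlc hl2 I hI hI2 𝒜 h𝒜I h𝒜 Θ J R hΘ hJ
    exact main hl hlω hlc hl2 I hI hI2 𝒜 h𝒜I h𝒜 Θ J R hΘ hJ

end Pool.Agent.Results.MP_04ddd8_lc.NotFullPowerSet
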